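import Pool.Agent.Lib.MP_ac4d2b_ag_HF.Fin

/-!
MP_ac4d2b_ag, question Q1, in terms of ideals: the Hilbert scheme of 12 points of affine 3-space
is irreducible and the ideals of 12 distinct points are dense in it.

`Hilb n` is the set of ideals of colength `n` of the polynomial ring in three variables, with the
Zariski topology given by the monomial charts (`Pool/Agent/Lib/MP_ac4d2b_ag_HF/Hilb.lean`).
-/

set_option autoImplicit false

namespace Pool.Agent.Results.MP_ac4d2b_ag.HilbertIdeals

open Pool.Agent.HilbPts

/-- The Hilbert scheme of 12 points of affine 3-space over the complex numbers is irreducible:
the space of ideals of colength 12 is irreducible in the Zariski topology and every such ideal lies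
in the closure of the set of ideals of 12 distinct points. -/
theorem result : IrreducibleSpace (Hilb 12) ∧ Dense (distinctLocus 12) :=
  hilb_irreducible (by norm_num) le_rfl

end Pool.Agent.Results.MP_ac4d2b_ag.HilbertIdeals
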